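import Mathlib
import Pool.Agent.ZPF.AllCrit
import Pool.Agent.ZPF.AllDens
import Pool.Agent.ZPOrd.DiscInst

open Filter Topology Pool.Agent.Lib.ModularZP Pool.Agent.ZPOrd Pool.Agent.ZPF

namespace Pool.Agent.Results.MP_e573c6_ag.AllCurves

variable {K : Type*} [Field K] [Algebra ℂ K] {m d e n : ℕ}

/-- The function `A i = ∑ c x ^ a y ^ b`, `b ≤ e`, `a + m b ≤ d`. -/
def funA (x y : K) (c : Fin n → Cf m d e → ℚ) (i : Fin n) : K :=
  ∑ s : Mo m d e, algebraMap ℂ K (c i (Sum.inl s) : ℂ) * x ^ (s.2 : ℕ) * y ^ (s.1 : ℕ)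

/-- The function `B i = ∑ c x ^ a`, `a ≤ d`. -/
def funB (x : K) (c : Fin n → Cf m d e → ℚ) (i : Fin n) : K :=
  ∑ a : Fin (d + 1), algebraMap ℂ K (c i (Sum.inr a) : ℂ) * x ^ (a : ℕ)

/-- The curve in `Y(1)ⁿ = ℂⁿ` with coordinate functions `A i / B i`. -/
def curve (x y : K) (c : Fin n → Cf m d e → ℚ) : Set (Fin n → ℂ) :=
  placeCurve fun i => funA x y c i / funB x c i

theorem result (htr : Algebra.trdeg ℂ K = 1) (x y : K) (hx : Transcendental ℂ x) (f : Fin (e + 1) → Polynomial ℂ)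
    (hf : ∀ b, (f b).natDegree ≤ m * (e + 1 - (b : ℕ)))
    (hy : y ^ (e + 1) = ∑ b : Fin (e + 1), Polynomial.aeval x (f b) * y ^ (b : ℕ)) (hd : 3 ≤ d) (hmd : 2 * (m * e) ≤ d) :
    Tendsto (fun H : ℕ => ((boxF n m d e H ∩
      {c | ¬ (HodgeGeneric (curve x y c) ∧ atyp (curve x y c) = ∅)}).ncard : ℝ) / (boxF n m d e H).ncard)
      atTop (𝓝 0) := by
  obtain ⟨S, hS⟩ := allCrit (n := n) (d := d) htr (by omega) hx f hf hy discFn_dsc
  refine density_all hd hmd f dsc dsc_count S _ fun c hc => ?_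
  exact hS c hc

end Pool.Agent.Results.MP_e573c6_ag.AllCurves
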