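import Mathlib
import Pool.Agent.ZP58.Crit
import Pool.Agent.ZPOrd.DiscInst
import Pool.Agent.ZPOrd.OrdDens
import Pool.Agent.ZPOrd.Split

open Filter Topology Pool.Agent.Lib.ModularZP Pool.Agent.ZPOrd Pool.Agent.ZP58

namespace Pool.Agent.Results.MP_e573c6_ag.EveryCurveConst

variable {K : Type*} [Field K] [Algebra ℂ K] {n N : ℕ}

/-- `P` is a place of `K` over `ℂ` (possibly the trivial one). -/
def IsPlace (P : ValuationSubring K) : Prop := ∀ z : ℂ, algebraMap ℂ K z ∈ P

/-- `P` is a pole of the `i`-th system of functions `h i, b i k`. -/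
def PoleAt (h : Fin n → K) (b : Fin n → Fin N → K) (i : Fin n) (P : ValuationSubring K) : Prop :=
  h i ∉ P ∨ ∃ k, b i k ∉ P

/-- `P` is a zero of `b i l` as a section of `O(D i)`, `D i` the least effective divisor such that
`h i` and all `b i k` are in `L(D i)`. -/
def ZeroAt (h : Fin n → K) (b : Fin n → Fin N → K) (i : Fin n) (l : Fin N) (P : ValuationSubring K) : Prop :=
  P.valuation (b i l) < 1 ∨ P.valuation (b i l) < P.valuation (h i) ∨
    ∃ k, P.valuation (b i l) < P.valuation (b i k)

/-- `P` is a base point of the `i`-th system: not a pole, and all `b i k` vanish at `P`. -/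
def BaseAt (h : Fin n → K) (b : Fin n → Fin N → K) (i : Fin n) (P : ValuationSubring K) : Prop :=
  ¬ PoleAt h b i P ∧ ∀ k, P.valuation (b i k) < 1

/-- The curve in `Y(1)ⁿ = ℂⁿ` with coordinate functions `h i + ∑ₖ c i k * b i k`. -/
def curve (h : Fin n → K) (b : Fin n → Fin N → K) (c : Fin n → Fin N → ℚ) : Set (Fin n → ℂ) :=
  placeCurve fun i => h i + ∑ k, algebraMap ℂ K (c i k : ℂ) * b i k

/-- **Zilber–Pink for almost all members of base point free families of curves in `Y(1)ⁿ`**, in
particular for almost all rational translates of every curve (`b i k = 1`); constant coordinates are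
allowed. -/
theorem result (htr : Algebra.trdeg ℂ K = 1) (hn : 2 ≤ n) (h : Fin n → K) (b : Fin n → Fin N → K)
    (l : Fin n → Fin N) (h0 : ∀ i, b i (l i) ≠ 0)
    (h1 : ∃ i, Transcendental ℂ (h i) ∨ ∃ k, Transcendental ℂ (b i k))
    (hbase : ∀ i j, i ≠ j → ∀ P : ValuationSubring K, IsPlace P →
      PoleAt h b i P ∨ ZeroAt h b i (l i) P → ¬ BaseAt h b j P) :
    Tendsto (fun H : ℕ => ((boxA n N H ∩
      {c | ¬ (HodgeGeneric (curve h b c) ∧ (atyp (curve h b c)).Finite)}).ncard : ℝ) / (boxA n N H).ncard)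
      atTop (𝓝 0) := by
  classical
  set b' : Fin n → Fin (N + 1) → K := fun i => Fin.cons (h i) (b i) with hb'
  set U : Fin n → Fin (N + 1) → Prop := fun _ l => ∃ l' : Fin N, l = l'.succ with hU
  have hpole : ∀ (P : ValuationSubring K) i, AtPole P (b' i) ↔ PoleAt h b i P := by
    intro P i
    unfold AtPole PoleAt
    rw [Fin.exists_fin_succ]
    simp only [hb', Fin.cons_zero, Fin.cons_succ]
  have hzero : ∀ (P : ValuationSubring K) i (l : Fin N), AtZero P (b' i) l.succ ↔ ZeroAt h b i l P := by
    intro P i l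
    unfold AtZero ZeroAt
    rw [Fin.exists_fin_succ]
    simp only [hb', Fin.cons_zero, Fin.cons_succ]
  obtain ⟨S, T, E, hT, hE, hcrit⟩ := ordCrit' htr hn b' (fun i => (l i).succ)
    (fun i => by simp only [hb', Fin.cons_succ]; exact h0 i)
    (by
      obtain ⟨i, h2 | ⟨k, hk⟩⟩ := h1
      · exact ⟨i, 0, by simp only [hb', Fin.cons_zero]; exact h2⟩
      · exact ⟨i, k.succ, by simp only [hb', Fin.cons_succ]; exact hk⟩)
    U
    (fun i j hij P hP hz => by
      have h2 : PoleAt h b i P ∨ ZeroAt h b i (l i) P := by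
        rcases hz with hz | hz
        · exact Or.inr ((hzero P i (l i)).mp hz)
        · exact Or.inl ((hpole P i).mp hz)
      have h3 := hbase i j hij P hP h2
      by_cases hp : PoleAt h b j P
      · exact Or.inl ((hpole P j).mpr hp)
      · right
        unfold BaseAt at h3
        push Not at h3
        obtain ⟨k, hk⟩ := h3 hp
        refine ⟨k.succ, ⟨k, rfl⟩, ?_⟩
        have hmem : b j k ∈ P := by
          by_contra h4
          exact hp (Or.inr ⟨k, h4⟩)
        simp only [hb', Fin.cons_succ]
        exact le_antisymm ((P.valuation_le_one_iff _).mpr hmem) hk)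
    discFn_dsc
  refine density_ord_of dsc dsc_count S T E ?_ ?_ exists_split_primes _ fun c hc => ?_
  · intro j ζ hζ h2
    obtain ⟨m, hm⟩ := hT j ζ hζ
    rw [h2] at hm
    exact zero_ne_one hm
  · intro j e he
    obtain ⟨k, ⟨k', rfl⟩, hk⟩ := hE j e he
    exact ⟨k', hk⟩
  · set c' : Fin n → Fin (N + 1) → ℂ := fun i => Fin.cons 1 (fun k => (c i k : ℂ)) with hc'
    have hcurve : curve h b c = placeCurve fun i => lin (b' i) (c' i) := by
      unfold curve
      congr 1
      funext i
      rw [lin, Fin.sum_univ_succ]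
      simp only [hb', hc', Fin.cons_zero, Fin.cons_succ, map_one, one_mul]
    rw [hcurve]
    have hsum : ∀ j (e : Fin (N + 1) → ℂ), ∑ k, c' j k * e k = e 0 + ∑ k : Fin N, (c j k : ℂ) * e k.succ := by
      intro j e
      rw [Fin.sum_univ_succ]
      simp only [hc', Fin.cons_zero, Fin.cons_succ, one_mul]
    have hgood : ∀ i l (V : ValuationSubring ℂ), GoodA S T (fun i k => (c i k : ℂ)) i l V → GoodL S T c' i l.succ V := by
      rintro i l V ⟨g1, g2, g3, g4⟩
      refine ⟨g1, by simp only [hc', Fin.cons_succ]; exact g2, ?_, ?_⟩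
      · intro j k hjk
        refine Fin.cases ?_ (fun k => ?_) k hjk
        · intro _
          simp only [hc', Fin.cons_zero]
          exact V.one_mem
        · intro hjk
          simp only [hc', Fin.cons_succ]
          refine g3 j k fun h2 => hjk ?_
          rw [Prod.mk.injEq] at h2
          rw [h2.1, h2.2]
      · intro j hj ζ hζ
        rw [hsum]
        exact g4 j hj ζ hζ
    have hred : ∀ i l p (V : ValuationSubring ℂ) ρ, RedA dsc S T E (fun i k => (c i k : ℂ)) i l p V ρ →
        RedL dsc S T E c' i l.succ p V ρ := by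
      intro i l p V ρ hR
      exact ⟨hR.prime, hR.two, hR.val, hgood i l V hR.good, fun j hj e he => by rw [hsum]; exact hR.res j hj e he,
        hR.ord, hR.cross⟩
    refine hcrit c' fun i => ?_
    obtain ⟨p, q, V, V', ρ, ρ', hpq, hR, hR', hcr⟩ := hc i (l i)
    exact ⟨p, q, V, V', ρ, ρ', hpq, hred i _ p V ρ hR, hred i _ q V' ρ' hR', hcr⟩

end Pool.Agent.Results.MP_e573c6_ag.EveryCurveConst
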