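import Mathlib
import Pool.Agent.ZPRC.Nbhd

open Pool.Agent.Lib.ModularZP Pool.Agent.ZPRC

universe u v

namespace Pool.Agent.Results.MP_e573c6_ag.OpenSets

section defs

variable {K : Type*} [Field K] [Algebra ℂ K] {n N : ℕ}

/-- The function `A i = ∑ₖ (c i k).1 * b i k`. -/
def funA (b : Fin n → Fin N → K) (c : Fin n → Fin N → ℂ × ℂ) (i : Fin n) : K :=
  ∑ k, algebraMap ℂ K (c i k).1 * b i k

/-- The function `B i = ∑ₖ (c i k).2 * b i k`. -/
def funB (b : Fin n → Fin N → K) (c : Fin n → Fin N → ℂ × ℂ) (i : Fin n) : K :=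
  ∑ k, algebraMap ℂ K (c i k).2 * b i k

/-- The curve in `Y(1)ⁿ = ℂⁿ` with coordinate functions `A i / B i`. -/
def curve (b : Fin n → Fin N → K) (c : Fin n → Fin N → ℂ × ℂ) : Set (Fin n → ℂ) :=
  placeCurve fun i => funA b c i / funB b c i

/-- Chinese remainders -/
lemma crt (R : Subring ℂ) {u v N₀ Q : ℤ} (huv : u * N₀ + v * Q = 1) (a : ℤ) {g : ℂ} (hg : g ∈ R) :
    ∃ h : ℂ, (∃ r ∈ R, h = g + N₀ * r) ∧ ∃ r ∈ R, h = a + Q * r := by
  have h1 : (u : ℂ) * N₀ + v * Q = 1 := by exact_mod_cast huv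
  refine ⟨g + N₀ * (u * (a - g)), ⟨u * (a - g), mul_mem (intCast_mem R u) (sub_mem (intCast_mem R a) hg), rfl⟩,
    v * (g - a), mul_mem (intCast_mem R v) (sub_mem hg (intCast_mem R a)), ?_⟩
  linear_combination (a - g) * h1

/-- a correction which makes a ratio non-constant -/
lemma exists_corr (b : Fin N → K) (A B : K) {L : ℂ} (hL : L ≠ 0) :
    ∃ d : Fin N → ℤ, B ≠ 0 → (∃ k l, Transcendental ℂ (b k / b l)) →
      Transcendental ℂ ((A + algebraMap ℂ K L * ∑ k, algebraMap ℂ K (d k : ℂ) * b k) / B) := by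
  classical
  by_cases hB : B = 0
  · exact ⟨fun _ => 0, fun h => absurd hB h⟩
  by_cases h : ∃ k l, Transcendental ℂ (b k / b l)
  · obtain ⟨k, l, hkl⟩ := h
    obtain ⟨m, hm⟩ : ∃ m, Transcendental ℂ (b m / B) := by
      by_contra hcon
      push Not at hcon
      have h1 : IsAlgebraic ℂ (b k / B) := by
        have := hcon k
        rwa [Transcendental, not_not] at this
      have h2 : IsAlgebraic ℂ (b l / B) := by
        have := hcon l
        rwa [Transcendental, not_not] at this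
      apply hkl
      have h3 : b k / b l = (b k / B) * (b l / B)⁻¹ := by
        rw [← div_eq_mul_inv, div_div_div_cancel_right₀ hB]
      rw [h3]
      exact h1.mul h2.inv
    by_cases hA : Transcendental ℂ (A / B)
    · refine ⟨fun _ => 0, fun _ _ => ?_⟩
      simpa using hA
    · refine ⟨fun j => if j = m then 1 else 0, fun _ _ halg => hm ?_⟩
      have hA' : IsAlgebraic ℂ (A / B) := by
        rwa [Transcendental, not_not] at hA
      have h4 : ∑ j, algebraMap ℂ K ((if j = m then (1 : ℤ) else 0 : ℤ) : ℂ) * b j = b m := by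
        rw [Finset.sum_eq_single m]
        · simp
        · intro j _ hj
          rw [if_neg hj]
          simp
        · intro h5
          exact absurd (Finset.mem_univ _) h5
      have hLK : algebraMap ℂ K L ≠ 0 := by rwa [Ne, map_eq_zero]
      have h6 : b m / B = ((A + algebraMap ℂ K L * ∑ j, algebraMap ℂ K ((if j = m then (1 : ℤ) else 0 : ℤ) : ℂ) * b j) / B -
          A / B) * algebraMap ℂ K L⁻¹ := by
        rw [h4, map_inv₀]
        field_simp
        ring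
      rw [h6]
      exact (halg.sub hA').mul (isAlgebraic_algebraMap _)
  · exact ⟨fun _ => 0, fun _ h' => absurd h' h⟩

end defs

/-- **Zilber–Pink in `Y(1)ⁿ` on open sets of curves**: `X` is the curve in `(ℙ^(N-1))ⁿ` of the points
`((b i 1 : ... : b i N))ᵢ`; the statement holds for the images in `Y(1)ⁿ`, under ratios of linear forms with
coefficients in a full residue class, of all curves which reduce into `X` modulo a valuation ring `V` of `ℂ`. -/
theorem result {K : Type u} [Field K] [Algebra ℂ K] {n N : ℕ} (htr : Algebra.trdeg ℂ K = 1)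
    (b : Fin n → Fin N → K) (hb : ∀ i, ∃ k, b i k ≠ 0)
    (S : Finset ℂ) (R : Subring ℂ) (hR : R = Subring.closure (S : Set ℂ))
    (G : Fin n → Fin N → ℂ × ℂ) (hG : ∀ i k, (G i k).1 ∈ R ∧ (G i k).2 ∈ R) (N₀ : ℕ) (hN₀ : 0 < N₀) :
    ∃ (p : ℕ) (V : ValuationSubring ℂ) (M : ℕ) (c₀ : Fin n → Fin N → ℂ × ℂ),
      p.Prime ∧ V.valuation (p : ℂ) < 1 ∧ (∀ z : ℂ, IsIntegral R z → z ∈ V) ∧ M = N₀ * p ^ (2 * n + 5) ∧
      (∀ i k, (∃ r ∈ R, (c₀ i k).1 = (G i k).1 + N₀ * r) ∧ ∃ r ∈ R, (c₀ i k).2 = (G i k).2 + N₀ * r) ∧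
      (∀ i, (∃ k l, Transcendental ℂ (b i k / b i l)) → Transcendental ℂ (funA b c₀ i / funB b c₀ i)) ∧
      ∀ (K' : Type v) [Field K'] [Algebra ℂ K'], Algebra.trdeg ℂ K' = 1 → ∀ b' : Fin n → Fin N → K',
        (∀ i, ∃ k, b' i k ≠ 0) → (∃ i k l, Transcendental ℂ (b' i k / b' i l)) →
        RedLE V (pts b') (pts b) →
        ∀ c : Fin n → Fin N → ℂ × ℂ,
          (∀ i k, (∃ z ∈ V, (c i k).1 = (c₀ i k).1 + M * z) ∧ ∃ z ∈ V, (c i k).2 = (c₀ i k).2 + M * z) →
          (∀ i, funB b' c i ≠ 0) ∧ HodgeGeneric (curve b' c) ∧ atyp (curve b' c) = ∅ := by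
  classical
  obtain ⟨v, w, S1, hS1⟩ := exists_Good htr b hb
  obtain ⟨p, V, hp, hV, hS⟩ := exists_good (({((N₀ : ℂ))⁻¹} ∪ S) ∪ S1)
  have hSV : ∀ s ∈ S, s ∈ V := fun s hs => hS s (Finset.mem_union_left _ (Finset.mem_union_right _ hs))
  have hN₀V : ((N₀ : ℂ))⁻¹ ∈ V := hS _ (Finset.mem_union_left _ (Finset.mem_union_left _ (Finset.mem_singleton_self _)))
  have hgood : Good V v w (pts b) := hS1 V fun s hs => hS s (Finset.mem_union_right _ hs)
  have hRV : ∀ r ∈ R, r ∈ V := by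
    have h1 : R ≤ V.toSubring := by
      rw [hR, Subring.closure_le]
      exact fun s hs => hSV s hs
    exact fun r hr => h1 hr
  have hRint : ∀ z : ℂ, IsIntegral R z → z ∈ V := by
    rintro z ⟨f, hf, hfz⟩
    have h1 : IsIntegral V z := by
      refine ⟨f.map (Subring.inclusion (fun r hr => hRV r hr : R ≤ V.toSubring)), hf.map _, ?_⟩
      rw [Polynomial.eval₂_map]
      exact hfz
    obtain ⟨y, hy⟩ := IsIntegrallyClosed.isIntegral_iff.mp h1
    rw [← hy]
    exact y.2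
  have hp0 : (p : ℂ) ≠ 0 := by exact_mod_cast hp.ne_zero
  have hN0 : (N₀ : ℂ) ≠ 0 := by exact_mod_cast hN₀.ne'
  have hco : IsCoprime (N₀ : ℤ) ((p : ℤ) ^ (2 * n + 5)) := by
    apply IsCoprime.pow_right
    rw [Nat.isCoprime_iff_coprime, Nat.coprime_comm]
    refine (Nat.Prime.coprime_iff_not_dvd hp).mpr fun hd => ?_
    obtain ⟨k, rfl⟩ := hd
    have h1 := (V.valuation_le_one_iff _).mpr hN₀V
    have h2 : V.valuation ((p * k : ℕ) : ℂ) < 1 := by
      push_cast
      rw [mul_comm]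
      exact val_mul_lt (natCast_mem V k) hV
    have h3 : V.valuation ((p * k : ℕ) : ℂ) ≠ 0 := by
      rw [Ne, map_eq_zero]; exact_mod_cast hN₀.ne'
    rw [map_inv₀] at h1
    exact absurd h2 (not_lt.mpr ((inv_le_one₀ (zero_lt_iff.mpr h3)).mp h1))
  -- the class
  obtain ⟨s, t, hst⟩ := hco
  choose h1 h1R h1Q using fun (i : Fin n) (k : Fin N) =>
    crt R (N₀ := (N₀ : ℤ)) (Q := (p : ℤ) ^ (2 * n + 5)) hst ((1 + (p : ℤ) ^ ((i : ℕ) + 2)) * v i k) (hG i k).1
  choose h2 h2R h2Q using fun (i : Fin n) (k : Fin N) =>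
    crt R (N₀ := (N₀ : ℤ)) (Q := (p : ℤ) ^ (2 * n + 5)) hst ((p : ℤ) ^ (n + 3) * v i k) (hG i k).2
  have hL : (N₀ : ℂ) * (p : ℂ) ^ (2 * n + 5) ≠ 0 := mul_ne_zero hN0 (pow_ne_zero _ hp0)
  choose d hd using fun i : Fin n => exists_corr (b i) (funA b (fun i k => (h1 i k, h2 i k)) i)
    (funB b (fun i k => (h1 i k, h2 i k)) i) hL
  set c₀ : Fin n → Fin N → ℂ × ℂ :=
    fun i k => (h1 i k + (N₀ : ℂ) * (p : ℂ) ^ (2 * n + 5) * (d i k : ℂ), h2 i k) with hc₀
  have hall : ∀ (K' : Type v) [Field K'] [Algebra ℂ K'], Algebra.trdeg ℂ K' = 1 → ∀ b' : Fin n → Fin N → K',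
        (∀ i, ∃ k, b' i k ≠ 0) → (∃ i k l, Transcendental ℂ (b' i k / b' i l)) →
        RedLE V (pts b') (pts b) →
        ∀ c : Fin n → Fin N → ℂ × ℂ,
          (∀ i k, (∃ z ∈ V, (c i k).1 = (c₀ i k).1 + (N₀ * p ^ (2 * n + 5) : ℕ) * z) ∧
            ∃ z ∈ V, (c i k).2 = (c₀ i k).2 + (N₀ * p ^ (2 * n + 5) : ℕ) * z) →
          (∀ i, funB b' c i ≠ 0) ∧ HodgeGeneric (curve b' c) ∧ atyp (curve b' c) = ∅ := by
    intro K' _ _ htr' b' hb' hne' hred c hc
    refine crit htr' hp hV b' hb' hne' (hgood.mono hred) (fun i k => (c i k).1) (fun i k => (c i k).2) ?_ ?_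
    · intro i k
      obtain ⟨⟨z, hz, e⟩, _⟩ := hc i k
      obtain ⟨r, hr, e'⟩ := h1Q i k
      refine ⟨r + N₀ * (d i k : ℂ) + N₀ * z, add_mem (add_mem (hRV r hr) (mul_mem (natCast_mem V _) (intCast_mem V _)))
        (mul_mem (natCast_mem V _) hz), ?_⟩
      show (c i k).1 = _
      rw [e]
      show h1 i k + _ + _ = _
      rw [e']
      push_cast
      ring
    · intro i k
      obtain ⟨_, z, hz, e⟩ := hc i k
      obtain ⟨r, hr, e'⟩ := h2Q i k
      refine ⟨r + N₀ * z, add_mem (hRV r hr) (mul_mem (natCast_mem V _) hz), ?_⟩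
      show (c i k).2 = _
      rw [e]
      show h2 i k + _ = _
      rw [e']
      push_cast
      ring
  refine ⟨p, V, N₀ * p ^ (2 * n + 5), c₀, hp, hV, hRint, rfl, ?_, ?_, hall⟩
  · intro i k
    obtain ⟨r1, hr1, e1⟩ := h1R i k
    obtain ⟨r2, hr2, e2⟩ := h2R i k
    refine ⟨⟨r1 + (p : ℂ) ^ (2 * n + 5) * (d i k : ℂ), add_mem hr1 (mul_mem (pow_mem (natCast_mem R p) _)
      (intCast_mem R _)), ?_⟩, r2, hr2, ?_⟩
    · show h1 i k + _ = _
      rw [e1]
      push_cast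
      ring
    · show h2 i k = _
      rw [e2]
      push_cast
      ring
  · intro i hi
    have hB0 : funB b c₀ i ≠ 0 := by
      refine (crit htr hp hV b hb ⟨i, hi⟩ hgood (fun i k => (c₀ i k).1) (fun i k => (c₀ i k).2) ?_ ?_).1 i
      · intro i k
        obtain ⟨r, hr, e'⟩ := h1Q i k
        refine ⟨r + N₀ * (d i k : ℂ), add_mem (hRV r hr) (mul_mem (natCast_mem V _) (intCast_mem V _)), ?_⟩
        show h1 i k + _ = _
        rw [e']
        push_cast
        ring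
      · intro i k
        obtain ⟨r, hr, e'⟩ := h2Q i k
        refine ⟨r, hRV r hr, ?_⟩
        show h2 i k = _
        rw [e']
        push_cast
        ring
    have h3 := hd i hB0 hi
    have h4 : funA b c₀ i = funA b (fun i k => (h1 i k, h2 i k)) i +
          algebraMap ℂ K ((N₀ : ℂ) * (p : ℂ) ^ (2 * n + 5)) * ∑ k, algebraMap ℂ K (d i k : ℂ) * b i k := by
      unfold funA
      rw [Finset.mul_sum, ← Finset.sum_add_distrib]
      refine Finset.sum_congr rfl fun k _ => ?_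
      simp only [hc₀, map_add, map_mul]
      ring
    rw [h4]
    exact h3

end Pool.Agent.Results.MP_e573c6_ag.OpenSets
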